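import Pool.Agent.Lib.MP_add2b9_al.Main

/-!
# Maps on matrices preserving the local spectrum of commutators at a vector

All maps `φ` on the algebra of complex `n × n` matrices (no surjectivity, linearity or continuity
assumed) for which `[φ T, φ S]` and `[T, S]` have the same local spectrum at a fixed nonzero vector
`x0`, for all `T` and `S`, are exactly the maps of standard form.
-/

namespace Pool.Agent.Results.MP_add2b9_al.CommutatorLocalSpectrum

open Pool.Agent.Lib.MP_add2b9_al

/-- For every `n`, every nonzero `x0 : Fin n → ℂ` and every map `φ` on the complex `n × n`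
matrices: `φ` preserves the local spectrum at `x0` of all commutators if and only if
`φ T = ξ T • A T A⁻¹ + η T • 1` with `A` invertible, `A x0 = x0`, `η` arbitrary and `ξ` a
`{1, -1}`-valued function constant off the exceptional set. -/
theorem result (n : ℕ) (x0 : Fin n → ℂ) (hx0 : x0 ≠ 0)
    (φ : Matrix (Fin n) (Fin n) ℂ → Matrix (Fin n) (Fin n) ℂ) :
    (∀ T S, localSpectrum (φ T * φ S - φ S * φ T) x0 = localSpectrum (T * S - S * T) x0) ↔
      IsStandardForm x0 φ :=
  main n x0 hx0 φ

end Pool.Agent.Results.MP_add2b9_al.CommutatorLocalSpectrum
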